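import Pool.Agent.W845.PM.Base

set_option autoImplicit false
open scoped Classical
open Filter Topology MeasureTheory ProbabilityTheory
open scoped ENNReal NNReal BigOperators

namespace Pool.Agent.W773.PM

open Pool.Agent.W845.PM

/-- PM-LOC: local convergence theorem, assembly. -/
theorem loc : S_STEP1 → S_STEP2 → S_ONE → S_TM → S_LOC := by
  intro h1 h2 hone htm c g u0 hg k
  induction k with
  | zero =>
    intro φ hφ p hp
    have h0 : ∫ ω, φ (T g u0 0 ω) ∂(Pm c) = φ u0 := by
      show ∫ ω, φ u0 ∂(Pm c) = φ u0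
      rw [integral_const]
      simp
    rw [h0]
    refine tendsto_const_nhds.congr' ?_
    filter_upwards [eventually_gt_atTop 0] with n hn
    symm
    have h3 : ∀ G : SimpleGraph (Fin n),
        |(∑ v : Fin n, φ (U g u0 0 G v)) / n - φ u0| = 0 := by
      intro G
      have h4 : ∑ v : Fin n, φ (U g u0 0 G v) = n * φ u0 := by
        show ∑ v : Fin n, φ u0 = n * φ u0
        simp
      have h5 : (n : ℝ) ≠ 0 := by positivity
      rw [h4, mul_div_cancel_left₀ _ h5, sub_self, abs_zero]
    rw [EG_congr h3]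
    simp [EG]
  | succ k ih =>
    intro φ hφ
    obtain ⟨B, hB0, hB⟩ : ∃ B : ℝ, 0 < B ∧ ∀ u, |φ u| ≤ B := by
      obtain ⟨B, hB⟩ := isCompact_univ.exists_bound_of_continuousOn hφ.continuousOn
      exact ⟨max B 1, by positivity, fun u => (hB u trivial).trans (le_max_left _ _)⟩
    have hφ' : Continuous (fun u => φ u / B) := hφ.div_const B
    have hφ1 : ∀ u, |φ u / B| ≤ 1 := by
      intro u
      rw [abs_div, abs_of_pos hB0, div_le_one hB0]
      exact hB u
    have s1 := h1 c g u0 k hg ih (fun s => φ (g k s) / B) (hφ'.comp (hg k))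
    have hm1 : |∫ ω, φ (T g u0 (k+1) ω) / B ∂(Pm c)| ≤ 1 := by
      have := norm_integral_le_of_norm_le_const (μ := Pm c) (C := 1)
        (f := fun ω => φ (T g u0 (k+1) ω) / B) (Eventually.of_forall fun ω => hφ1 _)
      simpa using this
    have s2 := h2 c g u0 k (fun u => φ u / B) (∫ ω, φ (T g u0 (k+1) ω) / B ∂(Pm c))
      c.coe_nonneg hφ1 hm1 s1
    intro p hp
    have s3 := (s2 p hp).const_mul B
    rw [mul_zero] at s3
    refine s3.congr fun n => ?_
    rw [← EG_mul_left]
    refine EG_congr fun G => ?_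
    have h6 : ∀ x : ℝ, B * |x| = |B * x| := fun x => by rw [abs_mul, abs_of_pos hB0]
    rw [h6, integral_div, ← Finset.sum_div]
    congr 1
    field_simp

end Pool.Agent.W773.PM
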